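import Pool.Agent.H56.JW.Targets

/-!
# MP_959f6e_co, board jwq_modules, row ASM: from an outer structure to a Hamiltonian cycle
-/

set_option autoImplicit false

open Finset

namespace Pool.Agent.H69.JWQ

open Pool.Agent.H56.JW
open Pool.Agent.H44.HC (StarFree KConn Link)

section
variable {V : Type}

lemma kon_mono [DecidableEq V] {k l : ℕ} {G : SimpleGraph V} {B : Finset V} (h : KOn k G B)
    (hl : l ≤ k) : KOn l G B :=
  ⟨lt_of_le_of_lt hl h.1, fun S hS => h.2 S (lt_of_lt_of_le hS hl)⟩

lemma dg_zero [Finite V] {H : SimpleGraph V} {v w : V} (h : dg H v = 0) : ¬ H.Adj v w := by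
  intro ha
  unfold dg at h
  rw [Set.ncard_eq_zero (Set.toFinite _)] at h
  have : w ∈ H.neighborSet v := ha
  rw [h] at this
  exact this

lemma closed_walk {H : SimpleGraph V} {P : V → Prop} (hP : ∀ a b, H.Adj a b → P a → P b)
    {u v : V} (h : H.Reachable u v) (hu : P u) : P v := by
  obtain ⟨p⟩ := h
  have hwalk : ∀ (a b : V) (q : H.Walk a b), P a → P b := by
    intro a b q
    induction q with
    | nil => exact id
    | cons h _ ih => exact fun ha => ih (hP _ _ h ha)
  exact hwalk _ _ p hu

lemma hamon_congr {S S' : Finset V} {H : SimpleGraph V} (h : HamOn S H)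
    (he : ∀ v, v ∈ S ↔ v ∈ S') : HamOn S' H := by
  have : S = S' := Finset.ext he
  rw [← this]
  exact h

lemma exists_edge [DecidableEq V] {k : ℕ} {G : SimpleGraph V} {B : Finset V} (h : KOn k G B)
    (hk : 1 ≤ k) : ∃ x ∈ B, ∃ y ∈ B, G.Adj x y := by
  have hB : 1 < B.card := lt_of_le_of_lt hk h.1
  obtain ⟨u, hu, v, hv, huv⟩ := Finset.one_lt_card.mp hB
  have hc := h.2 ∅ (by rw [Finset.card_empty]; omega)
  have hmem : ∀ w, w ∈ B → w ∈ ((B \ (∅ : Finset V) : Finset V) : Set V) := by
    intro w hw
    rw [Finset.sdiff_empty]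
    exact hw
  have hr := hc.preconnected ⟨u, hmem u hu⟩ ⟨v, hmem v hv⟩
  obtain ⟨p⟩ := hr
  cases p with
  | nil => exact absurd rfl huv
  | @cons _ w _ hadj _ =>
    refine ⟨u, hu, w.1, ?_, hadj⟩
    exact (Finset.mem_sdiff.mp (Finset.mem_coe.mp w.2)).1

end

/-- a graph in which all degrees are zero or two and which is acyclic has no edges -/
lemma acy_zero {V : Type} [Fintype V] {F : SimpleGraph V} (hF : F.IsAcyclic)
    (hd : ∀ v, dg F v = 2 ∨ dg F v = 0) (v : V) : dg F v = 0 := by
  classical
  rcases hd v with h | h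
  · exfalso
    have hcyc : F.IsCycles := by
      intro w hw
      rcases hd w with h' | h'
      · exact h'
      · exfalso
        obtain ⟨z, hz⟩ := hw
        exact dg_zero h' hz
    have hn : (F.neighborSet v).Nonempty := by
      rw [← Set.ncard_pos (Set.toFinite _)]
      unfold dg at h
      omega
    obtain ⟨p, hp, _⟩ := hcyc.exists_cycle_toSubgraph_verts_eq_connectedComponentSupp
      (SimpleGraph.ConnectedComponent.connectedComponentMk_mem (v := v)) hn
    exact hF p hp
  · exact h

theorem pf_ASM (hP : T_PAIR) (hE : T_EXP) (hM : T_MEC) (hH : T_HTP) (hF : T_HAMF) : T_ASM := by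
  classical
  intro V _ _ G X lab q F hq hne hblk hFS
  obtain ⟨v1, hv1⟩ := hne
  -- the number of vertices
  have hcard3 : 3 ≤ Fintype.card V := by
    obtain ⟨a, _, hk⟩ := hblk v1 hv1
    have h1 := hk.1
    have h2 : (cls X lab v1).card ≤ Fintype.card V := Finset.card_le_univ _
    omega
  have hmemcls : ∀ v w, w ∈ cls X lab v ↔ (w ∉ X ∧ lab w = lab v) := by
    intro v w
    rw [cls, Finset.mem_filter]
    exact ⟨fun h => h.2, fun h => ⟨Finset.mem_univ _, h⟩⟩
  by_cases hterm : ∃ v, v ∉ X ∧ dg F v = 1
  · -- there is a terminal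
    obtain ⟨v0, hv0X, hv0⟩ := hterm
    obtain ⟨M, hM1, hM2, hM3⟩ := hP V G X lab q F hFS ⟨v0, hv0X, hv0⟩
    -- every class contains a terminal
    have hclt : ∀ v, v ∉ X → ∃ w, w ∉ X ∧ lab w = lab v ∧ dg F w = 1 := by
      intro v hv
      by_contra hcon
      push Not at hcon
      have hz : ∀ w, w ∉ X → lab w = lab v → dg F w = 0 := by
        intro w hw hl
        have h1 := hFS.dP w hw
        have h2 := hcon w hw hl
        omega
      have hcl := closed_walk (P := fun w => w ∉ X ∧ lab w = lab v) (H := F ⊔ KL X lab) (by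
        rintro a b hab ⟨haX, hal⟩
        rcases hab with h | h
        · exact absurd h (dg_zero (hz a haX hal))
        · exact ⟨h.2.2.1, h.2.2.2.symm.trans hal⟩) (hFS.con v hv v0 hv0X) ⟨hv, rfl⟩
      exact hcon v0 hcl.1 hcl.2 hv0
    -- the induction
    have hind : ∀ N : Finset V, (∀ c ∈ N, ∃ v, v ∉ X ∧ lab v = c) →
        ∃ H : SimpleGraph V,
          HamOn (univ.filter fun v => (v ∈ X ∨ dg F v = 1) ∨ (v ∉ X ∧ lab v ∈ N)) H ∧
          (∀ u v, M.Adj u v → lab u ∉ N → H.Adj u v) ∧
          (∀ u v, H.Adj u v → u ∉ X → v ∉ X → lab u = lab v → lab u ∉ N → M.Adj u v) ∧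
          (∀ u v, H.Adj u v → G.Adj u v ∨ (M.Adj u v ∧ lab u ∉ N)) := by
      intro N
      induction N using Finset.induction_on with
      | empty =>
        intro _
        refine ⟨F ⊔ M, ?_, ?_, ?_, ?_⟩
        · refine hamon_congr hM3 ?_
          intro v
          rw [Finset.mem_filter, Finset.mem_filter]
          constructor
          · intro h
            exact ⟨h.1, Or.inl h.2⟩
          · intro h
            refine ⟨h.1, ?_⟩
            rcases h.2 with h2 | h2
            · exact h2
            · exact absurd h2.2 (Finset.notMem_empty _)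
        · intro u v h _
          exact Or.inr h
        · intro u v h hu hv hl _
          rcases h with h | h
          · exact absurd hl (hFS.dif u v h hu hv)
          · exact h
        · intro u v h
          rcases h with h | h
          · exact Or.inl (hFS.le h)
          · exact Or.inr ⟨h, Finset.notMem_empty _⟩
      | insert c N hcN ih =>
        intro hN
        obtain ⟨H, hH1, hH2, hH3, hH4⟩ := ih (fun c' hc' => hN c' (Finset.mem_insert_of_mem hc'))
        obtain ⟨v, hvX, hvc⟩ := hN c (Finset.mem_insert_self _ _)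
        obtain ⟨S, hS⟩ : ∃ S : Finset V, S = univ.filter fun v =>
          (v ∈ X ∨ dg F v = 1) ∨ (v ∉ X ∧ lab v ∈ N) := ⟨_, rfl⟩
        have hmS : ∀ w, w ∈ S ↔ ((w ∈ X ∨ dg F w = 1) ∨ (w ∉ X ∧ lab w ∈ N)) := by
          intro w
          rw [hS, Finset.mem_filter]
          exact ⟨fun h => h.2, fun h => ⟨Finset.mem_univ _, h⟩⟩
        rw [← hS] at hH1
        obtain ⟨B, hB⟩ : ∃ B : Finset V, B = cls X lab v := ⟨_, rfl⟩
        have hmB : ∀ w, w ∈ B ↔ (w ∉ X ∧ lab w = c) := by
          intro w
          rw [hB, hmemcls, hvc]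
        have hSB : ∀ w ∈ B, w ∈ S → dg F w = 1 := by
          intro w hw hwS
          rw [hmB] at hw
          rw [hmS] at hwS
          rcases hwS with (h | h) | h
          · exact absurd h hw.1
          · exact h
          · rw [hw.2] at h
            exact absurd h.2 hcN
        let MB : SimpleGraph V :=
          { Adj := fun u w => M.Adj u w ∧ u ∈ B ∧ w ∈ B
            symm := ⟨fun _ _ h => ⟨h.1.symm, h.2.2, h.2.1⟩⟩
            loopless := ⟨fun _ h => h.1.ne rfl⟩ }
        have hMBadj : ∀ u w, MB.Adj u w ↔ (M.Adj u w ∧ u ∈ B ∧ w ∈ B) := fun u w => Iff.rfl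
        have hMB2 : ∀ u w, M.Adj u w → u ∈ B → w ∈ B := by
          intro u w h hu
          rw [hmB] at hu ⊢
          have := hM1 u w h
          exact ⟨this.2.1, this.2.2.1.symm.trans hu.2⟩
        have hdgMB : ∀ w ∈ B, dg MB w = dg M w := by
          intro w hw
          unfold dg
          have : MB.neighborSet w = M.neighborSet w := by
            ext z
            rw [SimpleGraph.mem_neighborSet, SimpleGraph.mem_neighborSet, hMBadj]
            exact ⟨fun h => h.1, fun h => ⟨h, hw, hMB2 w z h hw⟩⟩
          rw [this]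
        have hexp := hE V G H MB S B hH1 (by
          intro u w huw
          have h := (hMBadj u w).mp huw
          refine hH2 u w h.1 ?_
          rw [((hmB u).mp h.2.1).2]
          exact hcN) (by
          intro u w huw
          exact ((hMBadj u w).mp huw).2) (by
          intro w hw hwS
          rw [hdgMB w hw]
          exact hM2 w ((hmB w).mp hw).1 (hSB w hw hwS)) (by
          obtain ⟨w, hwX, hwl, hwd⟩ := hclt v hvX
          exact ⟨w, (hmB w).mpr ⟨hwX, hwl.trans hvc⟩, (hmS w).mpr (Or.inl (Or.inr hwd))⟩) (by
          intro u w huw hu hw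
          have hu' := (hmB u).mp hu
          have hw' := (hmB w).mp hw
          refine (hMBadj u w).mpr ⟨hH3 u w huw hu'.1 hw'.1 (hu'.2.trans hw'.2.symm) ?_, hu, hw⟩
          rw [hu'.2]
          exact hcN) (by
          intro M' hM'1 hM'2 hM'3
          obtain ⟨a, ha1, ha2⟩ := hblk v hvX
          rw [← hB] at ha1 ha2
          have hZm : ∀ z, z ∈ trm X lab F v ↔ (z ∈ B ∧ dg F z = 1) := by
            intro z
            rw [trm, Finset.mem_filter, hB]
          have hBZ : ∀ z ∈ B, dg F z = 1 → z ∈ S := by
            intro z _ hzd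
            exact (hmS z).mpr (Or.inl (Or.inr hzd))
          have hZc := hM V M' (trm X lab F v) (by
            have haux : ∀ u w, M'.Adj u w → u ∈ trm X lab F v := by
              intro u w huw
              rw [hZm]
              refine ⟨(hM'1 u w huw).1, ?_⟩
              by_cases huS : u ∈ S
              · exact hSB u (hM'1 u w huw).1 huS
              · exact absurd huw (dg_zero (hM'3 u (hM'1 u w huw).1 huS))
            intro u w huw
            exact ⟨haux u w huw, haux w u huw.symm⟩) (by
            intro z hz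
            rw [hZm] at hz
            exact hM'2 z hz.1 (hBZ z hz.1 hz.2))
          have hcap := hFS.cap v hvX
          have hZne : 0 < (trm X lab F v).card := by
            rw [Finset.card_pos]
            obtain ⟨w, hwX, hwl, hwd⟩ := hclt v hvX
            exact ⟨w, (hZm w).mpr ⟨(hmB w).mpr ⟨hwX, hwl.trans hvc⟩, hwd⟩⟩
          refine hH V G M' B a M'.edgeSet.ncard ha1 (kon_mono ha2 (by omega)) ⟨hM'1, ?_⟩ rfl
            (by omega)
          intro w
          by_cases hw : w ∈ B
          · by_cases hwS : w ∈ S
            · rw [hM'2 w hw hwS]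
            · rw [hM'3 w hw hwS]
              exact Nat.zero_le _
          · have : M'.neighborSet w = ∅ := by
              rw [Set.eq_empty_iff_forall_notMem]
              intro z hz
              exact hw (hM'1 w z hz).1
            unfold dg
            rw [this, Set.ncard_empty]
            exact Nat.zero_le _)
        obtain ⟨H', hH'1, hH'2, hH'3⟩ := hexp
        refine ⟨H', ?_, ?_, ?_, ?_⟩
        · refine hamon_congr hH'1 ?_
          intro w
          rw [Finset.mem_union, hmS, hmB, Finset.mem_filter, Finset.mem_insert]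
          constructor
          · rintro (h | h)
            · refine ⟨Finset.mem_univ _, ?_⟩
              rcases h with h | h
              · exact Or.inl h
              · exact Or.inr ⟨h.1, Or.inr h.2⟩
            · exact ⟨Finset.mem_univ _, Or.inr ⟨h.1, Or.inl h.2⟩⟩
          · rintro ⟨_, h⟩
            rcases h with h | h
            · exact Or.inl (Or.inl h)
            · rcases h.2 with h2 | h2
              · exact Or.inr ⟨h.1, h2⟩
              · exact Or.inl (Or.inr ⟨h.1, h2⟩)
        · intro u w huw hl
          rw [Finset.mem_insert, not_or] at hl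
          refine hH'2 ?_
          rw [SimpleGraph.sdiff_adj]
          refine ⟨hH2 u w huw hl.2, ?_⟩
          intro h
          exact hl.1 ((hmB u).mp ((hMBadj u w).mp h).2.1).2
        · intro u w huw hu hw hl hl2
          rw [Finset.mem_insert, not_or] at hl2
          rcases hH'3 u w huw with h | h
          · exact hH3 u w h.1 hu hw hl hl2.2
          · exact absurd ((hmB u).mp h.1).2 hl2.1
        · intro u w huw
          rcases hH'3 u w huw with h | h
          · rcases hH4 u w h.1 with h2 | h2
            · exact Or.inl h2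
            · refine Or.inr ⟨h2.1, ?_⟩
              rw [Finset.mem_insert, not_or]
              refine ⟨?_, h2.2⟩
              intro hlc
              apply h.2
              have huB : u ∈ B := (hmB u).mpr ⟨(hM1 u w h2.1).1, hlc⟩
              exact (hMBadj u w).mpr ⟨h2.1, huB, hMB2 u w h2.1 huB⟩
          · exact Or.inl h.2.2
    obtain ⟨H, hH1, _, _, hH4⟩ := hind ((univ \ X).image lab) (by
      intro c hc
      rw [Finset.mem_image] at hc
      obtain ⟨v, hv, e⟩ := hc
      exact ⟨v, (Finset.mem_sdiff.mp hv).2, e⟩)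
    refine hF V G H (hamon_congr hH1 ?_) ?_ hcard3
    · intro w
      rw [Finset.mem_filter]
      refine ⟨fun _ => Finset.mem_univ _, fun _ => ⟨Finset.mem_univ _, ?_⟩⟩
      by_cases hw : w ∈ X
      · exact Or.inl (Or.inl hw)
      · exact Or.inr ⟨hw, Finset.mem_image_of_mem lab
          (Finset.mem_sdiff.mpr ⟨Finset.mem_univ _, hw⟩)⟩
    · intro u w huw
      rcases hH4 u w huw with h | h
      · exact h
      · exfalso
        apply h.2
        exact Finset.mem_image_of_mem lab
          (Finset.mem_sdiff.mpr ⟨Finset.mem_univ _, (hM1 u w h.1).1⟩)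
  · -- no terminals
    push Not at hterm
    have hz : ∀ v, dg F v = 0 := by
      refine acy_zero hFS.acy ?_
      intro v
      by_cases hv : v ∈ X
      · exact Or.inl (hFS.dX v hv)
      · have h1 := hFS.dP v hv
        have h2 := hterm v hv
        omega
    have hX : ∀ v, v ∉ X := by
      intro v hv
      have h1 := hFS.dX v hv
      have h2 := hz v
      omega
    have hB : cls X lab v1 = univ := by
      rw [Finset.eq_univ_iff_forall]
      intro w
      rw [hmemcls]
      refine ⟨hX w, ?_⟩
      have hcl := closed_walk (P := fun w => lab w = lab v1) (H := F ⊔ KL X lab) (by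
        rintro a b hab hal
        rcases hab with h | h
        · exact absurd h (dg_zero (hz a))
        · exact h.2.2.2.symm.trans hal) (hFS.con v1 hv1 w (hX w)) rfl
      exact hcl
    obtain ⟨a, ha1, ha2⟩ := hblk v1 hv1
    rw [hB] at ha1 ha2
    obtain ⟨x, _, y, _, hxy⟩ := exists_edge ha2 (by omega)
    let M : SimpleGraph V :=
      { Adj := fun u w => (u = x ∧ w = y) ∨ (u = y ∧ w = x)
        symm := ⟨fun _ _ h => h.elim (fun h => Or.inr ⟨h.2, h.1⟩) (fun h => Or.inl ⟨h.2, h.1⟩)⟩
        loopless := ⟨fun u h => h.elim (fun h => hxy.ne (h.1.symm.trans h.2))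
          (fun h => hxy.ne (h.2.symm.trans h.1))⟩ }
    have hMadj : ∀ u w, M.Adj u w ↔ ((u = x ∧ w = y) ∨ (u = y ∧ w = x)) := fun _ _ => Iff.rfl
    have hMG : M ≤ G := by
      intro u w h
      rcases (hMadj u w).mp h with h | h
      · rw [h.1, h.2]; exact hxy
      · rw [h.1, h.2]; exact hxy.symm
    have hcyc := hH V G M univ a 1 ha1 (kon_mono ha2 (by omega)) ⟨fun u w _ =>
      ⟨Finset.mem_univ _, Finset.mem_univ _⟩, ?_⟩ ?_ (le_refl 1)
    · obtain ⟨C, hC1, hC2, _⟩ := hcyc
      refine hF V G C hC1 ?_ hcard3
      intro u w huw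
      rcases hC2 huw with h | h
      · exact h
      · exact hMG h
    · intro v
      unfold dg
      rw [Set.ncard_le_one (Set.toFinite _)]
      intro p hp r hr
      have hp' := (hMadj v p).mp hp
      have hr' := (hMadj v r).mp hr
      rcases hp' with hp' | hp' <;> rcases hr' with hr' | hr'
      · rw [hp'.2, hr'.2]
      · exact absurd (hp'.1.symm.trans hr'.1) hxy.ne
      · exact absurd (hr'.1.symm.trans hp'.1) hxy.ne
      · rw [hp'.2, hr'.2]
    · have : M.edgeSet = {s(x, y)} := by
        ext e
        induction e using Sym2.ind with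
        | _ u w =>
          rw [SimpleGraph.mem_edgeSet, hMadj, Set.mem_singleton_iff, Sym2.eq_iff]
      rw [this, Set.ncard_singleton]

end Pool.Agent.H69.JWQ
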