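import Pool.Agent.H56.JW.Targets

/-!
# MP_959f6e_co, board jwq_modules, row FST: outer structures exist
-/

set_option autoImplicit false

open Finset

namespace Pool.Agent.H69.JWQ

open Pool.Agent.H56.JW
open Pool.Agent.H44.HC (StarFree KConn Link)

theorem pf_FST (hX : T_FDX) (hP : T_FDP) (hA : T_FA) (hF : T_FP) : T_FST := by
  intro V _ _ G L X lab q hL hsel
  obtain ⟨T1, T2, at', hS⟩ := hsel
  obtain ⟨J, hJ, hev⟩ := hF V G L X lab q T1 T2 at' hL hS
  obtain ⟨h1, h2, h3, h4, h5⟩ := hA V G L X lab q T1 T2 at' hL hS J hJ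
  exact ⟨FG L X T1 T2 J at',
    { le := h1
      dX := fun x hx => hX V G L X lab q T1 T2 at' hL hS J hJ x hx
      dP := fun y hy => (hP V G L X lab q T1 T2 at' hL hS J hJ y hy).2
      acy := h2
      dif := h3
      con := h4
      cap := h5
      par := hev }⟩

end Pool.Agent.H69.JWQ
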