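import Pool.Agent.H56.JW.Targets

/-!
# MP_959f6e_co, board jwq_modules, row HTP: cycles through virtual matchings
-/

set_option autoImplicit false

open Finset

namespace Pool.Agent.H69.JWQ

open Pool.Agent.H56.JW
open Pool.Agent.H44.HC (StarFree KConn Link)

lemma nb_one {V : Type} [Finite V] {M : SimpleGraph V} {v a b : V} (hd : dg M v ≤ 1)
    (ha : M.Adj v a) (hb : M.Adj v b) : a = b := by
  unfold dg at hd
  rw [Set.ncard_le_one (Set.toFinite _)] at hd
  exact hd a ha b hb

theorem pf_HTP (hL : T_LNK) (hG : T_L2G) : T_HTP := by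
  classical
  intro V _ _ G M B a t hal hkon hmat hcard ht
  have hne : M.edgeSet.Nonempty := by
    rw [← Set.ncard_pos (Set.toFinite _)]
    omega
  obtain ⟨e, he⟩ := hne
  obtain ⟨x, y, hxy⟩ : ∃ x y, M.Adj x y := by
    induction e using Sym2.ind with
    | _ u w => exact ⟨u, w, he⟩
  have hxB := hmat.1 x y hxy
  have hadjM' : ∀ u v, (M.deleteEdges {s(x, y)}).Adj u v ↔ M.Adj u v ∧ s(u, v) ≠ s(x, y) := by
    intro u v
    rw [SimpleGraph.deleteEdges_adj, Set.mem_singleton_iff]
  have hal' : AlphaLe a (G ⊔ M) B := by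
    intro T hT hp
    refine hal T hT ?_
    intro u hu v hv huv h
    exact hp hu hv huv (Or.inl h)
  have hkon' : KOn (a + 2 * t) (G ⊔ M) B := by
    refine ⟨hkon.1, fun S hS => (hkon.2 S hS).mono ?_⟩
    intro u v h
    exact Or.inl h
  have hMle : M.deleteEdges {s(x, y)} ≤ G ⊔ M := by
    intro u v h
    exact Or.inr ((hadjM' u v).mp h).1
  have hmat' : Mat B (M.deleteEdges {s(x, y)}) := by
    refine ⟨fun u v h => hmat.1 u v ((hadjM' u v).mp h).1, ?_⟩
    intro v
    refine le_trans ?_ (hmat.2 v)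
    unfold dg
    refine Set.ncard_le_ncard ?_ (Set.toFinite _)
    intro w hw
    exact ((hadjM' v w).mp hw).1
  have hcard' : (M.deleteEdges {s(x, y)}).edgeSet.ncard + 1 = t := by
    rw [SimpleGraph.edgeSet_deleteEdges, ← hcard]
    exact Set.ncard_diff_singleton_add_one hxy (Set.toFinite _)
  have hdx : dg (M.deleteEdges {s(x, y)}) x = 0 := by
    have : (M.deleteEdges {s(x, y)}).neighborSet x = ∅ := by
      rw [Set.eq_empty_iff_forall_notMem]
      intro z hz
      have h := (hadjM' x z).mp hz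
      have := nb_one (hmat.2 x) h.1 hxy
      exact h.2 (by rw [this])
    unfold dg
    rw [this, Set.ncard_empty]
  have hdy : dg (M.deleteEdges {s(x, y)}) y = 0 := by
    have : (M.deleteEdges {s(x, y)}).neighborSet y = ∅ := by
      rw [Set.eq_empty_iff_forall_notMem]
      intro z hz
      have h := (hadjM' y z).mp hz
      have := nb_one (hmat.2 y) h.1 hxy.symm
      exact h.2 (by rw [this, Sym2.eq_swap])
    unfold dg
    rw [this, Set.ncard_empty]
  obtain ⟨Q, hQ, hall⟩ := hL V (G ⊔ M) (M.deleteEdges {s(x, y)}) B a t x y hal' hkon' hMle hmat'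
    hcard' hxB.1 hxB.2 hxy.ne hdx hdy
  have hQB : Q.toFinset = B := by
    ext w
    rw [List.mem_toFinset]
    exact ⟨fun h => hQ.sub w h, fun h => hall w h⟩
  have hlen : 3 ≤ Q.length := by
    have h1 : Q.toFinset.card = Q.length := List.toFinset_card_of_nodup hQ.nodup
    have h2 := hkon.1
    rw [hQB] at h1
    omega
  obtain ⟨C, hC1, hC2⟩ := hG V Q x y hQ.nodup hlen hQ.head hQ.last
  rw [hQB] at hC1
  refine ⟨C, hC1, ?_, ?_⟩
  · intro u v huv
    have hch : ∀ u v, [u, v] <:+: Q → (G ⊔ M).Adj u v := by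
      intro u v h
      obtain ⟨s1, s2, e1⟩ := h
      have h1 := hQ.chain
      rw [← e1] at h1
      have h2 := h1.left_of_append.right_of_append
      rw [List.isChain_cons_cons] at h2
      exact h2.1
    rcases (hC2 u v).mp huv with h | h | h | h
    · exact hch u v h
    · exact (hch v u h).symm
    · rw [h.1, h.2]
      exact Or.inr hxy
    · rw [h.1, h.2]
      exact Or.inr hxy.symm
  · intro u v huv
    rw [hC2]
    by_cases h : s(u, v) = s(x, y)
    · rw [Sym2.eq_iff] at h
      rcases h with h | h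
      · exact Or.inr (Or.inr (Or.inl h))
      · exact Or.inr (Or.inr (Or.inr h))
    · rcases hQ.has u v ((hadjM' u v).mpr ⟨huv, h⟩) with h1 | h1
      · exact Or.inl h1
      · exact Or.inr (Or.inl h1)

end Pool.Agent.H69.JWQ
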