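import Pool.Agent.H56.JW.Targets

/-!
# MP_959f6e_co, board jwq_modules, row HX: the selection exists
-/

set_option autoImplicit false

open Finset

namespace Pool.Agent.H69.JWQ

open Pool.Agent.H56.JW
open Pool.Agent.H44.HC (StarFree KConn Link)
open Pool.Agent.H44.HC.Hax (Good)

theorem pf_HX (hG : T_HXG) (hA : T_HXA) (hB : T_HXB) (hC : T_HXC) : T_HX := by
  classical
  intro V _ _ G L X lab q hdeg hin hcut hend
  -- good sets have at most `finrank` elements
  have hbd : ∀ T : Finset (Elt V), Good (valE G L X lab q) (phiE lab) (spE L lab) T →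
      T.card ≤ Module.finrank ℚ ((Bool → V → ℚ) × (V × Fin 2 → ℚ)) := by
    intro T hT
    have h1 : LinearIndependent ℚ (fun x : (T : Set (Elt V)) => phiE lab x) := hT.li
    have h2 := h1.fintype_card_le_finrank
    rw [← Nat.card_eq_fintype_card, Nat.card_coe_set_eq, Set.ncard_coe_finset] at h2
    exact h2
  have hex : ∃ n, (∃ T, Good (valE G L X lab q) (phiE lab) (spE L lab) T ∧ T.card = n) ∧
      ∀ T, Good (valE G L X lab q) (phiE lab) (spE L lab) T → T.card ≤ n := by
    have h0 : ∃ n, ∀ T, Good (valE G L X lab q) (phiE lab) (spE L lab) T → T.card ≤ n :=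
      ⟨_, hbd⟩
    have hmin := Nat.find_spec h0
    refine ⟨Nat.find h0, ?_, hmin⟩
    by_contra hcon
    push Not at hcon
    have hgood0 : Good (valE G L X lab q) (phiE lab) (spE L lab) ∅ := by
      refine ⟨?_, ?_, ?_⟩
      · intro t ht
        exact absurd ht (Finset.notMem_empty _)
      · intro t ht
        exact absurd ht (Finset.notMem_empty _)
      · rw [Finset.coe_empty]
        exact linearIndepOn_empty ℚ _
    have hne0 := hcon ∅ hgood0
    rw [Finset.card_empty] at hne0
    have hlt : Nat.find h0 - 1 < Nat.find h0 := by omega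
    refine Nat.find_min h0 hlt ?_
    intro T hT
    have h1 := hmin T hT
    have h2 := hcon T hT
    omega
  obtain ⟨n, ⟨T0, hT0, hT0n⟩, hmax⟩ := hex
  by_cases hn : rk L X lab ≤ n
  · exact hB V G L X lab q T0 hT0 (by rw [hT0n]; exact hn)
  · exfalso
    refine hG (Elt V) (V ⊕ (V × ℕ)) ((Bool → V → ℚ) × (V × Fin 2 → ℚ)) (valE G L X lab q)
      (phiE lab) (spE L lab) n 22 (fun z hz => (hC V G L X lab q hdeg z hz).1)
      (fun z hz => (hC V G L X lab q hdeg z hz).2) hmax ⟨T0, hT0, hT0n⟩ ?_
    intro T hT hTn R hR U hU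
    have hlt : T.card < rk L X lab := by rw [hTn]; omega
    obtain ⟨z, hz1, hz2, hz3⟩ := hA V G L X lab q hcut hend T hT hlt R hR U hU
    refine ⟨z, hz1, ?_, hz3⟩
    rw [Finset.coe_sdiff] at hz2 ⊢
    exact hz2

end Pool.Agent.H69.JWQ
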