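import Pool.Agent.H56.JW.Targets

/-!
# MP_959f6e_co, board jwq_modules, row LNK: paths through a matching covering a block
-/

set_option autoImplicit false

open Finset

namespace Pool.Agent.H69.JWQ.LNKp

open Pool.Agent.H56.JW
open Pool.Agent.H44.HC (StarFree KConn Link)

lemma nb_one {V : Type} [Finite V] {M : SimpleGraph V} {v a b : V} (hd : dg M v ≤ 1)
    (ha : M.Adj v a) (hb : M.Adj v b) : a = b := by
  unfold dg at hd
  rw [Set.ncard_le_one (Set.toFinite _)] at hd
  exact hd a ha b hb

lemma no_adj {V : Type} [Finite V] {H : SimpleGraph V} {v w : V} (h : dg H v = 0) :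
    ¬ H.Adj v w := by
  intro ha
  unfold dg at h
  rw [Set.ncard_eq_zero (Set.toFinite _)] at h
  have : w ∈ H.neighborSet v := ha
  rw [h] at this
  exact this

lemma kon_mono {V : Type} [DecidableEq V] {k l : ℕ} {G : SimpleGraph V} {B : Finset V}
    (h : KOn k G B) (hl : l ≤ k) : KOn l G B :=
  ⟨lt_of_le_of_lt hl h.1, fun S hS => h.2 S (lt_of_lt_of_le hS hl)⟩

/-- paths in connected induced graphs as lists -/
lemma path_list {V : Type} [DecidableEq V] {G : SimpleGraph V} {S : Set V} {x y : V} (hx : x ∈ S)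
    (hy : y ∈ S) (h : (G.induce S).Connected) : ∃ Q : List V, Q.Nodup ∧ Q.IsChain G.Adj ∧
      Q.head? = some x ∧ Q.getLast? = some y ∧ ∀ v ∈ Q, v ∈ S := by
  classical
  obtain ⟨p⟩ := h.preconnected ⟨x, hx⟩ ⟨y, hy⟩
  obtain ⟨q, hq⟩ := p.toPath
  refine ⟨q.support.map Subtype.val, ?_, ?_, ?_, ?_, ?_⟩
  · exact List.Nodup.map Subtype.val_injective hq.support_nodup
  · rw [List.isChain_map]
    exact q.isChain_adj_support
  · rw [List.head?_map, List.head?_eq_some_head q.support_ne_nil, q.head_support]
    rfl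
  · rw [List.getLast?_map, List.getLast?_eq_some_getLast q.support_ne_nil, q.getLast_support]
    rfl
  · intro v hv
    rw [List.mem_map] at hv
    obtain ⟨w, _, e⟩ := hv
    rw [← e]
    exact w.2

theorem main (hE : T_EXT) (hR : T_ROT) : ∀ (t : ℕ), 1 ≤ t →
  ∀ (V : Type) [Fintype V] [DecidableEq V] (G M : SimpleGraph V) (B : Finset V) (a : ℕ) (x y : V),
    AlphaLe a G B → KOn (a + 2 * t) G B → M ≤ G → Mat B M → M.edgeSet.ncard + 1 = t → x ∈ B →
    y ∈ B → x ≠ y → dg M x = 0 → dg M y = 0 → ∃ Q, HP G M B x y Q ∧ ∀ v ∈ B, v ∈ Q := by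
  classical
  intro t ht
  induction t, ht using Nat.le_induction with
  | base =>
    intro V _ _ G M B a x y hal hkon hMG hmat hcard hx hy hxy hdx hdy
    refine hE V G M B a 1 x y hal (kon_mono hkon (by omega)) hMG hmat (by omega) hx hy hxy hdx hdy
      ?_
    have hc := hkon.2 ∅ (by rw [Finset.card_empty]; omega)
    have hmem : ∀ w, w ∈ B → w ∈ ((B \ (∅ : Finset V) : Finset V) : Set V) := by
      intro w hw
      rw [Finset.sdiff_empty]
      exact hw
    obtain ⟨Q, h1, h2, h3, h4, h5⟩ := path_list (hmem x hx) (hmem y hy) hc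
    refine ⟨Q, h1, h2, h3, h4, ?_, ?_⟩
    · intro v hv
      exact (Finset.mem_sdiff.mp (Finset.mem_coe.mp (h5 v hv))).1
    · intro u v huv
      exfalso
      have h0 : M.edgeSet.ncard = 0 := by omega
      rw [Set.ncard_eq_zero (Set.toFinite _)] at h0
      have : s(u, v) ∈ M.edgeSet := huv
      rw [h0] at this
      exact this
  | succ t ht ih =>
    intro V _ _ G M B a x y hal hkon hMG hmat hcard hx hy hxy hdx hdy
    have hne : M.edgeSet.Nonempty := by
      rw [← Set.ncard_pos (Set.toFinite _)]
      omega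
    obtain ⟨e, he⟩ := hne
    obtain ⟨u, v, huv⟩ : ∃ u v, M.Adj u v := by
      induction e using Sym2.ind with
      | _ u w => exact ⟨u, w, he⟩
    have hadjM' : ∀ p q, (M.deleteEdges {s(u, v)}).Adj p q ↔ M.Adj p q ∧ s(p, q) ≠ s(u, v) := by
      intro p q
      rw [SimpleGraph.deleteEdges_adj, Set.mem_singleton_iff]
    have hB' : ∀ p q, M.Adj p q → p ∈ (B.erase x).erase y := by
      intro p q hpq
      rw [Finset.mem_erase, Finset.mem_erase]
      refine ⟨?_, ?_, (hmat.1 p q hpq).1⟩
      · intro h
        rw [h] at hpq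
        exact no_adj hdy hpq
      · intro h
        rw [h] at hpq
        exact no_adj hdx hpq
    have hdle : ∀ w, dg (M.deleteEdges {s(u, v)}) w ≤ dg M w := by
      intro w
      unfold dg
      refine Set.ncard_le_ncard ?_ (Set.toFinite _)
      intro z hz
      exact ((hadjM' w z).mp hz).1
    have hdu : dg (M.deleteEdges {s(u, v)}) u = 0 := by
      have : (M.deleteEdges {s(u, v)}).neighborSet u = ∅ := by
        rw [Set.eq_empty_iff_forall_notMem]
        intro z hz
        have h := (hadjM' u z).mp hz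
        have := nb_one (hmat.2 u) h.1 huv
        exact h.2 (by rw [this])
      unfold dg
      rw [this, Set.ncard_empty]
    have hdv : dg (M.deleteEdges {s(u, v)}) v = 0 := by
      have : (M.deleteEdges {s(u, v)}).neighborSet v = ∅ := by
        rw [Set.eq_empty_iff_forall_notMem]
        intro z hz
        have h := (hadjM' v z).mp hz
        have := nb_one (hmat.2 v) h.1 huv.symm
        exact h.2 (by rw [this, Sym2.eq_swap])
      unfold dg
      rw [this, Set.ncard_empty]
    have hcard' : (M.deleteEdges {s(u, v)}).edgeSet.ncard + 1 = t := by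
      have h1 : (M.deleteEdges {s(u, v)}).edgeSet.ncard + 1 = M.edgeSet.ncard := by
        rw [SimpleGraph.edgeSet_deleteEdges]
        exact Set.ncard_diff_singleton_add_one huv (Set.toFinite _)
      omega
    have hkon' : KOn (a + 2 * t) G ((B.erase x).erase y) := by
      constructor
      · have h1 := Finset.pred_card_le_card_erase (s := B.erase x) (a := y)
        have h2 := Finset.pred_card_le_card_erase (s := B) (a := x)
        have h3 := hkon.1
        omega
      · intro S hS
        have heq : ((B.erase x).erase y) \ S = B \ (insert x (insert y S)) := by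
          ext w
          simp only [Finset.mem_sdiff, Finset.mem_erase, Finset.mem_insert, not_or]
          constructor
          · rintro ⟨⟨h1, h2, h3⟩, h4⟩
            exact ⟨h3, h2, h1, h4⟩
          · rintro ⟨h3, h2, h1, h4⟩
            exact ⟨⟨h1, h2, h3⟩, h4⟩
        rw [heq]
        refine hkon.2 _ ?_
        have h1 := Finset.card_insert_le x (insert y S)
        have h2 := Finset.card_insert_le y S
        omega
    have hal' : AlphaLe a G ((B.erase x).erase y) := by
      intro T hT hp
      refine hal T (hT.trans ?_) hp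
      exact (Finset.erase_subset _ _).trans (Finset.erase_subset _ _)
    obtain ⟨l, hl, hall⟩ := ih V G (M.deleteEdges {s(u, v)}) ((B.erase x).erase y) a u v hal'
      hkon' (fun p q h => hMG ((hadjM' p q).mp h).1)
      ⟨fun p q h => ⟨hB' p q ((hadjM' p q).mp h).1, hB' q p ((hadjM' p q).mp h).1.symm⟩,
        fun w => (hdle w).trans (hmat.2 w)⟩ hcard' (hB' u v huv) (hB' v u huv.symm) huv.ne hdu hdv
    have hQ := hR V G M B (t + 1) x y u v l (kon_mono hkon (by omega)) hMG hmat (by omega) hx hy
      hxy hdx hdy huv hl hall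
    exact hE V G M B a (t + 1) x y hal (kon_mono hkon (by omega)) hMG hmat (by omega) hx hy hxy
      hdx hdy hQ

theorem pf_LNK (hE : T_EXT) (hR : T_ROT) : T_LNK := by
  intro V _ _ G M B a t x y h1 h2 h3 h4 h5 h6 h7 h8 h9 h10
  exact main hE hR t (by omega) V G M B a x y h1 h2 h3 h4 h5 h6 h7 h8 h9 h10

end Pool.Agent.H69.JWQ.LNKp

namespace Pool.Agent.H69.JWQ

open Pool.Agent.H56.JW

theorem pf_LNK (hE : T_EXT) (hR : T_ROT) : T_LNK := LNKp.pf_LNK hE hR

end Pool.Agent.H69.JWQ
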